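import Pool.Agent.Helper86.TC8.Stmts
import Pool.Agent.Helper86.TC8.Base

/-!
TC8, module CORE: the local lemma gives an outcome without bad events, which is repaired to a
total colouring.
-/

set_option autoImplicit false

namespace Pool.Agent.Helper89.TC8

open Finset Pool.Agent.Helper86.TC8
open scoped Classical

variable {V : Type}

/-- the events -/
def EV (C : Ctx V) (R : ℕ) : WS V ⊕ (V × L) → (Idx V → Bool) → Prop
  | .inl h => E2 C h
  | .inr q => E3 C R q.1 q.2

/-- the explored sets -/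
noncomputable def XV (C : Ctx V) (R : ℕ) : WS V ⊕ (V × L) → (Idx V → Bool) → Finset (Idx V)
  | .inl h => X2 C h
  | .inr q => X3 C R q.1 q.2

theorem st_CORE (llla : ST_LLLA) (loc : ST_LOC) (sum2 : ST_SUM2) (sum3 : ST_SUM3) (natr : ST_NATR)
    (ext : ST_EXT) (_fol : ST_FOL) : ST_CORE := by
  intro V _ C R D0 D1 hyp u hu hpf hin
  have hLF : 1 ≤ C.LF := by
    have := hyp.Lpos
    omega
  obtain ⟨loc2, loc3, card2, card3⟩ := loc V C hLF
  have hM : 1 ≤ 2 ^ (R + 2) * (3 * C.LF + 4) := by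
    have h1 : 1 ≤ 2 ^ (R + 2) := Nat.one_le_two_pow
    exact Nat.one_le_iff_ne_zero.2 (Nat.mul_ne_zero (by omega) (by omega))
  obtain ⟨ω, hω⟩ := llla (Idx V) (WS V ⊕ (V × L)) (EV C R) (XV C R)
    (2 ^ (R + 2) * (3 * C.LF + 4)) hM
    (by
      intro j ω ω' hE hX
      rcases j with h | q
      · exact loc2 h ω ω' hE hX
      · exact loc3 R q.1 q.2 ω ω' hE hX)
    (by
      intro j ω _
      rcases j with h | q
      · refine ⟨(card2 h ω).2.trans ?_, (card2 h ω).1⟩
        have h1 : 1 ≤ 2 ^ (R + 2) := Nat.one_le_two_pow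
        calc 3 * C.LF + 1 ≤ 1 * (3 * C.LF + 4) := by omega
          _ ≤ 2 ^ (R + 2) * (3 * C.LF + 4) := Nat.mul_le_mul_right _ h1
      · exact ⟨(card3 R q.1 q.2 ω).2, (card3 R q.1 q.2 ω).1⟩)
    (by
      intro i
      rw [Fintype.sum_sum_type]
      refine le_trans ?_ hin
      exact add_le_add (sum2 V C R D0 D1 hyp i) (sum3 V C R D0 D1 hyp u hu hpf i))
  have hstop : ∀ (t : Bool) (x : V), C.Z x = false → Stops C.G C.Z (PP C ω) C.LF (t, x) := by
    intro t x hx
    by_contra hs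
    exact hω (.inl (t, x)) ⟨hx, hs⟩
  refine ext V C.G C.Z (nat C ω) R (hyp.free.mono (by omega)) ?_ ?_ ?_
  · intro z w hz hw hw0 hwl
    exact hyp.z1 z w hz hw hw0 (hwl.trans (by have := hyp.D0R; omega))
  · intro c x hx hcx
    exact natr V C R D0 D1 hyp ω c x hx hcx (fun t => hstop t x hx) fun t => hstop t _ hcx
  · intro z a hz
    by_contra hne
    refine hω (.inr (z, a)) ⟨hz, ?_, hne⟩
    intro y hy t
    exact hstop t y (hyp.Z_br hz a hy)

end Pool.Agent.Helper89.TC8
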