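import Pool.Agent.Helper86.TC8.Stmts

/-!
TC8, module DEC: decay of the failure probability from the certificate and the recursion.
-/

set_option autoImplicit false

namespace Pool.Agent.Helper89.TC8

open Finset Pool.Agent.Helper86.TC8
open scoped Classical

theorem kw_nonneg (c : L) (x y : St) : 0 ≤ kw c x y := by
  unfold kw
  positivity

theorem lawE_mono : ∀ (d : ℕ) (a : L) (st : St) (M M' : Finset Pr → ℝ), (∀ X, M X ≤ M' X) →
    lawE d a st M ≤ lawE d a st M'
  | 0, a, st, M, M', h => h _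
  | d + 1, a, st, M, M', h => by
    show (∑ x : St, ∑ y : St, kw (k1 a) st x * kw (k2 a) st y *
      lawE d (k1 a) x (fun X => lawE d (k2 a) y (fun Y => M (comb X Y)))) ≤
      ∑ x : St, ∑ y : St, kw (k1 a) st x * kw (k2 a) st y *
      lawE d (k1 a) x (fun X => lawE d (k2 a) y (fun Y => M' (comb X Y)))
    refine Finset.sum_le_sum fun x _ => Finset.sum_le_sum fun y _ => ?_
    refine mul_le_mul_of_nonneg_left ?_ (mul_nonneg (kw_nonneg _ _ _) (kw_nonneg _ _ _))
    refine lawE_mono d _ _ _ _ fun X => lawE_mono d _ _ _ _ fun Y => h _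

theorem pnG_le_pnH (h : ∀ X : Finset Pr, InH X → InG X) (d : ℕ) (a : L) (st : St) :
    pnG d a st ≤ pnH d a st := by
  unfold pnG pnH
  have h1 : lawE d a st (fun X => if InH X then (1 : ℝ) else 0) ≤
      lawE d a st (fun X => if InG X then (1 : ℝ) else 0) := by
    refine lawE_mono d a st _ _ fun X => ?_
    by_cases hX : InH X
    · simp [hX, h X hX]
    · simp only [if_neg hX]
      split_ifs <;> norm_num
  linarith

/-- all three failure probabilities are at most `x` -/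
def Bd (d : ℕ) (x : ℝ) : Prop :=
  (∀ a st, pfail d a st ≤ x) ∧ (∀ a st, pnH d a st ≤ x) ∧ (∀ a st, pnG d a st ≤ x)

/-- one step with three separate bounds -/
theorem step1 (hrec : ST_REC) {d : ℕ} {u w v u' w' v' : ℝ} (hu : 0 ≤ u) (hw : 0 ≤ w) (hv : 0 ≤ v)
    (h : (∀ a st, pfail d a st ≤ u) ∧ (∀ a st, pnH d a st ≤ w) ∧ (∀ a st, pnG d a st ≤ v))
    (h1 : u ^ 2 + 2 * w ≤ u') (h2 : u ^ 2 + 2 * v ≤ w') (h3 : u ^ 2 ≤ v') :
    (∀ a st, pfail (d + 1) a st ≤ u') ∧ (∀ a st, pnH (d + 1) a st ≤ w') ∧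
      (∀ a st, pnG (d + 1) a st ≤ v') := by
  have H := hrec d u w v hu hw hv h.1 h.2.1 h.2.2
  exact ⟨fun a st => (H a st).1.trans h1, fun a st => (H a st).2.1.trans h2,
    fun a st => (H a st).2.2.trans h3⟩

theorem step3 (hrec : ST_REC) {d : ℕ} {x : ℝ} (hx : 0 ≤ x) (hx1 : x ≤ 1 / 1000) (h : Bd d x) :
    Bd (d + 3) (30 * x ^ 2) := by
  have hxx : x ^ 2 ≤ x / 1000 := by nlinarith
  have h0 : 0 ≤ x ^ 2 := sq_nonneg x
  have s1 := step1 hrec (u' := 2.001 * x) (w' := 2.001 * x) (v' := x ^ 2) hx hx hx h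
    (by nlinarith) (by nlinarith) le_rfl
  have s2 := step1 hrec (u' := 4.007 * x) (w' := 6.005 * x ^ 2) (v' := 4.005 * x ^ 2)
    (by positivity) (by positivity) h0 s1 (by nlinarith) (by nlinarith) (by nlinarith)
  exact step1 hrec (u' := 30 * x ^ 2) (w' := 30 * x ^ 2) (v' := 30 * x ^ 2)
    (by positivity) (by positivity) (by positivity) s2 (by nlinarith) (by nlinarith) (by nlinarith)

theorem bd22 (base : ST_BASE) (hrec : ST_REC) (hH : ∀ X : Finset Pr, InH X → InG X) :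
    Bd 22 ((1 / 2 ^ 11) / 30) := by
  have s16 : (∀ a st, pfail 16 a st ≤ 0.02) ∧ (∀ a st, pnH 16 a st ≤ 0.001) ∧
      (∀ a st, pnG 16 a st ≤ 0.001) :=
    ⟨fun a st => (base a st).1, fun a st => (base a st).2,
      fun a st => (pnG_le_pnH hH 16 a st).trans (base a st).2⟩
  have s17 := step1 hrec (u' := 0.0024) (w' := 0.0024) (v' := 0.0004) (by norm_num) (by norm_num)
    (by norm_num) s16 (by norm_num) (by norm_num) (by norm_num)
  have s18 := step1 hrec (u' := 0.00481) (w' := 0.00081) (v' := 0.000006) (by norm_num)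
    (by norm_num) (by norm_num) s17 (by norm_num) (by norm_num) (by norm_num)
  have s19 := step1 hrec (u' := 0.00165) (w' := 0.000036) (v' := 0.000024) (by norm_num)
    (by norm_num) (by norm_num) s18 (by norm_num) (by norm_num) (by norm_num)
  have s20 := step1 hrec (u' := 0.000075) (w' := 0.000051) (v' := 0.0000028) (by norm_num)
    (by norm_num) (by norm_num) s19 (by norm_num) (by norm_num) (by norm_num)
  have s21 := step1 hrec (u' := 0.00010201) (w' := 0.00000561) (v' := 0.00000001) (by norm_num)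
    (by norm_num) (by norm_num) s20 (by norm_num) (by norm_num) (by norm_num)
  exact step1 hrec (u' := (1 / 2 ^ 11) / 30) (w' := (1 / 2 ^ 11) / 30) (v' := (1 / 2 ^ 11) / 30)
    (by norm_num) (by norm_num) (by norm_num) s21 (by norm_num) (by norm_num) (by norm_num)

theorem bdk (base : ST_BASE) (hrec : ST_REC) (hH : ∀ X : Finset Pr, InH X → InG X) :
    ∀ k : ℕ, Bd (22 + 3 * k) ((1 / 2 ^ 11) ^ (2 ^ k) / 30)
  | 0 => by
    have := bd22 base hrec hH
    simpa using this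
  | k + 1 => by
    have h := bdk base hrec hH k
    have hp : (0 : ℝ) ≤ (1 / 2 ^ 11) ^ (2 ^ k) := by positivity
    have hle : ((1 : ℝ) / 2 ^ 11) ^ (2 ^ k) ≤ 1 / 2 ^ 11 :=
      (pow_le_pow_of_le_one (by norm_num) (by norm_num)
        (Nat.one_le_two_pow (n := k))).trans (by rw [pow_one])
    have h3 := step3 hrec (x := (1 / 2 ^ 11) ^ (2 ^ k) / 30) (by positivity)
      (by
        have : ((1 : ℝ) / 2 ^ 11) / 30 ≤ 1 / 1000 := by norm_num
        linarith [div_le_div_of_nonneg_right hle (by norm_num : (0 : ℝ) ≤ 30)]) h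
    have e : 30 * (((1 : ℝ) / 2 ^ 11) ^ (2 ^ k) / 30) ^ 2 = (1 / 2 ^ 11) ^ (2 ^ (k + 1)) / 30 := by
      rw [pow_succ 2 k, pow_mul]
      ring
    rw [e] at h3
    exact h3

theorem st_DEC (base : ST_BASE) (hrec : ST_REC) (hcomb : ST_COMB) : ST_DEC := by
  intro a st
  have h := (bdk base hrec hcomb.2.2.2.2.1 14).1 a st
  have h64 : 22 + 3 * 14 = 64 := by norm_num
  rw [h64] at h
  refine h.trans ?_
  have e : ((1 : ℝ) / 2 ^ 11) ^ (2 ^ 14) = (1 / 2) ^ (11 * 2 ^ 14) := by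
    rw [pow_mul, one_div_pow (2 : ℝ) 11]
  rw [e]
  have h1 : ((1 : ℝ) / 2) ^ (11 * 2 ^ 14) ≤ (1 / 2) ^ 100000 :=
    pow_le_pow_of_le_one (by norm_num) (by norm_num) (by norm_num)
  have h0 : (0 : ℝ) ≤ (1 / 2) ^ (11 * 2 ^ 14) := pow_nonneg (by norm_num) _
  have h2 : ((1 : ℝ) / 2) ^ (11 * 2 ^ 14) / 30 ≤ (1 / 2) ^ (11 * 2 ^ 14) :=
    div_le_self h0 (by norm_num)
  exact h2.trans h1

end Pool.Agent.Helper89.TC8
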