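import Pool.Agent.Helper86.TC8.Stmts

/-!
TC8, module E3P: probability of the bad event of a centre together with a path of a walker.
-/

set_option autoImplicit false

namespace Pool.Agent.Helper89.TC8

open Finset Pool.Agent.Helper86.TC8
open scoped Classical

theorem kw_nonneg' (c : L) (x y : St) : 0 ≤ kw c x y := by
  unfold kw
  positivity

theorem lawE_nonneg' : ∀ (d : ℕ) (a : L) (st : St) (M : Finset Pr → ℝ), (∀ X, 0 ≤ M X) →
    0 ≤ lawE d a st M
  | 0, a, st, M, h => h _
  | d + 1, a, st, M, h => by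
    show 0 ≤ ∑ x : St, ∑ y : St, kw (k1 a) st x * kw (k2 a) st y *
      lawE d (k1 a) x (fun X => lawE d (k2 a) y (fun Y => M (comb X Y)))
    refine Finset.sum_nonneg fun x _ => Finset.sum_nonneg fun y _ => ?_
    exact mul_nonneg (mul_nonneg (kw_nonneg' _ _ _) (kw_nonneg' _ _ _))
      (lawE_nonneg' d _ _ _ fun X => lawE_nonneg' d _ _ _ fun Y => h _)

theorem lawE_one_sub (hk : ∀ c x, ∑ y, kw c x y = 1) : ∀ (d : ℕ) (a : L) (st : St)
    (M : Finset Pr → ℝ), lawE d a st (fun X => 1 - M X) = 1 - lawE d a st M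
  | 0, a, st, M => rfl
  | d + 1, a, st, M => by
    show (∑ x : St, ∑ y : St, kw (k1 a) st x * kw (k2 a) st y *
      lawE d (k1 a) x (fun X => lawE d (k2 a) y (fun Y => 1 - M (comb X Y)))) =
      1 - ∑ x : St, ∑ y : St, kw (k1 a) st x * kw (k2 a) st y *
      lawE d (k1 a) x (fun X => lawE d (k2 a) y (fun Y => M (comb X Y)))
    have h1 : ∀ x y : St, lawE d (k1 a) x (fun X => lawE d (k2 a) y (fun Y => 1 - M (comb X Y))) =
        1 - lawE d (k1 a) x (fun X => lawE d (k2 a) y (fun Y => M (comb X Y))) := by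
      intro x y
      rw [← lawE_one_sub hk d (k1 a) x]
      congr 1
      funext X
      exact lawE_one_sub hk d (k2 a) y (fun Y => M (comb X Y))
    have h2 : ∑ x : St, ∑ y : St, kw (k1 a) st x * kw (k2 a) st y = 1 := by
      simp_rw [← Finset.mul_sum, hk, mul_one]
      exact hk _ _
    simp_rw [h1, mul_sub, mul_one, Finset.sum_sub_distrib]
    rw [h2]

/-- union bound -/
theorem pr_le_sum' {ι : Type} [Fintype ι] {κ : Type} (F : Finset κ) (A : (ι → Bool) → Prop)
    (B : κ → (ι → Bool) → Prop) (h : ∀ ω, A ω → ∃ k ∈ F, B k ω) :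
    pr A ≤ ∑ k ∈ F, pr (B k) := by
  unfold pr
  rw [← Finset.sum_div]
  refine div_le_div_of_nonneg_right ?_ (by positivity)
  rw [← Nat.cast_sum]
  refine Nat.cast_le.2 ?_
  have hsub : (univ.filter A : Finset (ι → Bool)) ⊆ F.biUnion fun k => univ.filter (B k) := by
    intro ω hω
    obtain ⟨k, hk, hB⟩ := h ω (mem_filter.1 hω).2
    exact mem_biUnion.2 ⟨k, hk, mem_filter.2 ⟨mem_univ _, hB⟩⟩
  exact (card_le_card hsub).trans card_biUnion_le

theorem pr_false' {ι : Type} [Fintype ι] (A : (ι → Bool) → Prop) (h : ∀ ω, ¬ A ω) : pr A = 0 := by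
  unfold pr
  rw [Finset.filter_false_of_mem fun ω _ => h ω]
  simp

theorem st_E3P (star : ST_STAR) (lawt : ST_LAWT) (col : ST_COL) : ST_E3P := by
  intro V _ C R D0 D1 hyp z a u y t0 l hy hl hu
  have hk : ∀ c x, ∑ y, kw c x y = 1 := col.2.2.2.2.1
  set M : Finset Pr → ℝ := fun X => 1 - (if X = full then 1 else 0) with hM
  have hM0 : ∀ X, 0 ≤ M X := by
    intro X
    simp only [hM]
    split_ifs <;> norm_num
  have hpf : ∀ st, pfail R a st = lawE R a st M := by
    intro st
    unfold pfail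
    rw [hM, lawE_one_sub hk]
  have hu0 : 0 ≤ u := le_trans (by rw [hpf]; exact lawE_nonneg' R a _ M hM0) (hu ⟨true, true, true, true⟩)
  have hc0 : (0 : ℝ) ≤ 2 ^ (2 * R + 8) * (1 / 2) ^ l.length := by positivity
  by_cases hz : C.Z z = true
  · -- the sum over the trees
    have hA : pr (fun ω : Idx V → Bool => E3 C R z a ω ∧ follows C.G C.Z (PP C ω) l (t0, y)) ≤
        ∑ t ∈ (univ.filter fun t : Tr R => feas R a t ≠ full),
          pr (fun ω : Idx V → Bool => rd C.G (nat C ω) R a (act1 C.G a z) = t ∧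
            StopBr C R a (act1 C.G a z) ω ∧ follows C.G C.Z (PP C ω) l (t0, y)) := by
      refine pr_le_sum' _ _ _ fun ω hω => ?_
      exact ⟨rd C.G (nat C ω) R a (act1 C.G a z), mem_filter.2 ⟨mem_univ _, hω.1.2.2⟩, rfl,
        hω.1.2.1, hω.2⟩
    refine hA.trans ?_
    have hB : ∑ t ∈ (univ.filter fun t : Tr R => feas R a t ≠ full),
          pr (fun ω : Idx V → Bool => rd C.G (nat C ω) R a (act1 C.G a z) = t ∧
            StopBr C R a (act1 C.G a z) ω ∧ follows C.G C.Z (PP C ω) l (t0, y)) ≤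
        ∑ t ∈ (univ.filter fun t : Tr R => feas R a t ≠ full),
          2 ^ (2 * R + 8) * (1 / 2) ^ l.length * (1 / 16 * wtr R a t) :=
      Finset.sum_le_sum fun t _ => star V C R D0 D1 hyp z a t y t0 l hz hy hl
    refine hB.trans ?_
    have hC : ∑ t ∈ (univ.filter fun t : Tr R => feas R a t ≠ full),
          (2 : ℝ) ^ (2 * R + 8) * (1 / 2) ^ l.length * (1 / 16 * wtr R a t) =
        2 ^ (2 * R + 8) * (1 / 2) ^ l.length * (1 / 16 * ∑ t : Tr R, wtr R a t * M (feas R a t)) := by
      rw [← Finset.mul_sum, ← Finset.mul_sum, Finset.sum_filter]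
      congr 2
      refine Finset.sum_congr rfl fun t _ => ?_
      simp only [hM]
      by_cases ht : feas R a t = full
      · simp [ht]
      · simp [ht]
    have hD : ∑ t : Tr R, wtr R a t * M (feas R a t) = ∑ st : St, pfail R a st := by
      have h1 : ∀ t : Tr R, wtr R a t * M (feas R a t) =
          ∑ st : St, (if root R t = st then wtr R a t * M (feas R a t) else 0) := by
        intro t
        rw [Finset.sum_ite_eq]
        simp
      rw [Finset.sum_congr rfl fun t _ => h1 t, Finset.sum_comm]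
      refine Finset.sum_congr rfl fun st _ => ?_
      rw [lawt R a st M, hpf st]
    have hE : ∑ st : St, pfail R a st ≤ 16 * u := by
      have hc : (Fintype.card St) = 16 := by decide
      calc ∑ st : St, pfail R a st ≤ ∑ _st : St, u := Finset.sum_le_sum fun st _ => hu st
        _ = 16 * u := by
          rw [Finset.sum_const, Finset.card_univ, hc, nsmul_eq_mul]
          norm_num
    rw [hC, hD]
    refine mul_le_mul_of_nonneg_left ?_ hc0
    linarith
  · rw [pr_false' _ fun ω hω => hz hω.1.1]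
    exact mul_nonneg hc0 hu0

end Pool.Agent.Helper89.TC8
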