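import Pool.Agent.Helper86.TC8.Stmts
import Pool.Agent.Helper86.TC8.Base

/-!
TC8, module MAIN1: the model theorem from the existence of the centres, the core, the decay and
the numbers.
-/

set_option autoImplicit false

namespace Pool.Agent.Helper89.TC8

open Finset Pool.Agent.Helper86.TC8
open scoped Classical

/-- the general form with all numbers abstract -/
theorem main_abs (R D0 j K D1 LF : ℕ) (u : ℝ) (hu : 0 ≤ u) (sta : ST_STA) (core : ST_CORE)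
    (hD0 : 1 ≤ D0) (hD0R : 2 * R + 8 ≤ D0) (hK : K = 2 * (D0 + 3) * 2 ^ j) (hD1 : D1 = j * (D0 + 3) + 1)
    (h1 : (24 : ℝ) * 2 ^ (2 * j + 2 * D0 + 4) * (D0 + 3) * (1 - 1 / 2 ^ (D0 + 4)) ^ (2 ^ j) ≤ 1)
    (hLF : 2 * R + 10 ≤ LF) (hdec : ∀ a st, pfail R a st ≤ u)
    (h2 : ((LF : ℝ) * (2 * (6 * ((K : ℝ) + 1) + 2)) * (1 - 1 / 2 ^ D1) ^ (LF / D1 - 2) +
      2 ^ (R + 3) * (((LF : ℝ) + 1) * (2 ^ (2 * R + 8) * u * (2 * (6 * ((K : ℝ) + 1) + 2))))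
      ≤ 1 / (6 * (2 ^ (R + 2) * (3 * LF + 4) : ℕ)))) :
    ST_MAIN1 := by
  refine ⟨(8 * (D0 + 3) * 2 ^ j + 4 * j * (D0 + 3) + 8 * D0 + 100) +
    (4 * R + 8 * LF + 16 * K + 2 * D0 + 100), ?_⟩
  intro V _ G hG
  obtain ⟨Z, hz1, hz2f, hz2b, hz3⟩ := sta D0 j hD0 h1 V G (hG.mono (Nat.le_add_right _ _))
  have hyp : Hyp (⟨G, Z, fun v => ((Fintype.equivFin V) v : ℕ), K, LF⟩ : Ctx V) R D0 D1 := by
    refine ⟨hG.mono (Nat.le_add_left _ _), ?_, hLF, ?_, hD0R, ?_, hz1, ?_, ?_, ?_⟩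
    · intro v w hvw
      exact (Fintype.equivFin V).injective (Fin.ext hvw)
    · show 1 ≤ K
      rw [hK]
      have : 0 < 2 * (D0 + 3) * 2 ^ j := by positivity
      exact this
    · rw [hD1]
      exact Nat.le_add_left _ _
    · rw [hD1]
      exact hz2f
    · rw [hD1]
      exact hz2b
    · show ∀ (β : Bool) (x : V), Ends G Z K β x
      rw [hK]
      exact hz3
  exact core V ⟨G, Z, fun v => ((Fintype.equivFin V) v : ℕ), K, LF⟩ R D0 D1 hyp u hu hdec h2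

theorem st_MAIN1 (sta : ST_STA) (core : ST_CORE) (dec : ST_DEC) (num : ST_NUM) : ST_MAIN1 := by
  obtain ⟨h1, LF, hLF, h2⟩ := num
  refine main_abs 64 136 150 (2 * 139 * 2 ^ 150) (150 * 139 + 1) LF ((1 / 2) ^ 100000)
    (pow_nonneg (by norm_num) _) sta core (by norm_num) (by norm_num) ?_ ?_ ?_ hLF dec h2
  · rfl
  · rfl
  · have e : ((136 : ℕ) : ℝ) + 3 = 136 + 3 := by norm_num
    rw [e]
    exact h1

end Pool.Agent.Helper89.TC8
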